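import Pool.Agent.Lib.Arb.Final

/-!
# The mass of the two-dimensional arboreal gas is exponentially small

`decayRates β` is the set of all `c > 0` for which there is `C` with
`ℙ_{β,Λ_L}[i ↔ j] ≤ C exp (-c |i - j|)` for all `L ≥ 1` and all `i, j ∈ Λ_L = (ℤ / L)²`, and
`mass β` is its supremum, the quantity `m(β)` of the problem. We prove `m(β) ≤ exp (-a β)` for all
large `β`, with some `a > 0`.

The proof is elementary. For a finite weighted graph one considers the random Schrödinger operator
`H = 2 φ - W > 0` with density `exp (-⟨1, H 1⟩ / 2) √(det H)`. One shows that its partition function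
is the one of the arboreal gas, that `ℙ[x ↔ y] = 𝔼 G(x, y) = 𝔼 (G(x, y) / G(x, x))` for
`G = H⁻¹`, and that `1 / G(x, x)` is chi-square with three degrees of freedom. The Thomson
principle in the ground state representation bounds `ℙ[x ↮ y]` by the energy of any flow from `x`
to `y` times `𝔼 (G(x, x) / G(x, a)²)`; the latter is controlled by the Prékopa-Leindler inequality
(`log G(x, a)` is convex, `log det H` is concave) and a continuity argument in an additional
pinning. In two dimensions the resistance of a box grows like the logarithm of its side.
-/

set_option autoImplicit false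

namespace Pool.Agent.Results.MP_a51497_pr.MassUpperBound

open Pool.Agent.Lib.Arb

/-- There are `a > 0` and `β₀ > 0` such that for all `β ≥ β₀` every rate `c > 0` of exponential
decay of the connection probabilities, uniform in the torus, is at most `exp (-a β)`; in
particular the mass satisfies `m(β) ≤ exp (-a β)`. -/
theorem result : ∃ a : ℝ, 0 < a ∧ ∃ β₀ : ℝ, 0 < β₀ ∧ ∀ β : ℝ, β₀ ≤ β →
    (∀ c ∈ decayRates β, c ≤ Real.exp (-(a * β))) ∧ mass β ≤ Real.exp (-(a * β)) :=
  mass_upper

end Pool.Agent.Results.MP_a51497_pr.MassUpperBound
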