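import Pool.Agent.Lib.Arb.Final

/-!
# Connection probabilities of the two-dimensional arboreal gas below the correlation length

We prove a lower bound for `ℙ_{β,Λ_L}[i ↔ j]` which is uniform in `β`, `L` and `i ≠ j` and which
is close to `1` as long as `log |i - j|` is small compared with `β`.
-/

set_option autoImplicit false

namespace Pool.Agent.Results.MP_a51497_pr.PairConnection

open Pool.Agent.Lib.Arb

/-- There is a constant `C` with `ℙ_{β,Λ_L}[i ↔ j] ≥ 1 - C (1 + log |i - j|) / β` for all `β > 0`,
all `L ≥ 3` and all `i ≠ j` in `Λ_L`, where `|i - j|` is the graph distance. -/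
theorem result : ∃ C : ℝ, 0 < C ∧ ∀ β : ℝ, 0 < β → ∀ (L : ℕ) [NeZero L], 3 ≤ L →
    ∀ i j : ZMod L × ZMod L, i ≠ j →
      1 - C * (1 + Real.log ((torus L).dist i j)) / β ≤ connProb (torus L) β i j :=
  pair_lower

end Pool.Agent.Results.MP_a51497_pr.PairConnection
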