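import Pool.Agent.Lib.Arb.Final

/-!
# Effective resistance controls the connection probabilities of the arboreal gas

On an arbitrary finite graph the probability that two points are not connected in the arboreal gas
is bounded by a universal constant times the effective resistance divided by `β`.
-/

set_option autoImplicit false

namespace Pool.Agent.Results.MP_a51497_pr.ResistanceCriterion

open Pool.Agent.Lib.Arb

/-- `θ` is a unit flow from `x` to `y` along the edges of `G` with both ends in `S`, of energy
`∑ θ(e)²` (each edge counted once) at most `R`. -/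
structure IsUnitFlow {V : Type} [Fintype V] (G : SimpleGraph V) (S : Finset V) (x y : V)
    (θ : V → V → ℝ) (R : ℝ) : Prop where
  antisymm : ∀ a b, θ b a = -θ a b
  supported : ∀ a b, θ a b ≠ 0 → a ∈ S ∧ b ∈ S ∧ G.Adj a b
  conserved : ∀ a, a ≠ x → a ≠ y → ∑ b, θ a b = 0
  source : x ≠ y → ∑ b, θ x b = 1
  energy : (∑ a, ∑ b, θ a b ^ 2) / 2 ≤ R

/-- There is a universal constant `C` such that for every finite graph `G`, every `β > 0`, every
set `S` of vertices, every vertex `x` and every `R` such that each `y ∈ S` can be reached from `x`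
by a unit flow inside `S` of energy at most `R` (that is, the effective resistance between `x` and
`y` in the graph induced on `S` is at most `R`), one has `ℙ_{β,G}[x ↔ y] ≥ 1 - C R / β` for all
`y ∈ S`. -/
theorem result : ∃ C : ℝ, 0 < C ∧
    ∀ (V : Type) [Fintype V] (G : SimpleGraph V) (β : ℝ), 0 < β →
    ∀ (x : V) (S : Finset V) (R : ℝ),
    (∀ y ∈ S, ∃ θ : V → V → ℝ, IsUnitFlow G S x y θ R) →
    ∀ y ∈ S, 1 - C * R / β ≤ connProb G β x y := by
  classical
  obtain ⟨K, hK, hgen⟩ := general_graph
  refine ⟨K, hK, ?_⟩
  intro V _ G β hβ x S R hflow y hy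
  have hZ := ZG_pos G hβ
  have hR : 0 ≤ R := by
    obtain ⟨θ, hθ⟩ := hflow y hy
    refine le_trans ?_ hθ.energy
    exact div_nonneg (Finset.sum_nonneg fun a _ => Finset.sum_nonneg fun b _ => sq_nonneg _)
      (by norm_num)
  have h := hgen V G β hβ x S R ?_ y y hy
  · rw [NG_self, NG_comm] at h
    rw [connProb_eq, le_div_iff₀ hZ]
    exact h
  · intro y' hy'
    obtain ⟨θ, hθ⟩ := hflow y' hy'
    by_cases hxy : x = y'
    · subst hxy
      refine ⟨fun _ _ => 0, fun a b h => absurd rfl h, fun v => by simp, by simpa using hR⟩
    refine ⟨fun a b => θ a b / 2, ?_, ?_, ?_⟩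
    · intro a b hab
      refine hθ.supported a b fun h0 => hab ?_
      simp [h0]
    · intro v
      -- divergence
      have hdiv : ∀ a, ∑ b, θ a b = (if a = x then 1 else 0) - (if a = y' then 1 else 0) := by
        have htot : ∑ a, ∑ b, θ a b = 0 := by
          have h1 : ∑ a, ∑ b, θ a b = ∑ a, ∑ b, θ b a := Finset.sum_comm
          have h2 : ∑ a, ∑ b, θ b a = -∑ a, ∑ b, θ a b := by
            simp only [← Finset.sum_neg_distrib]
            exact Finset.sum_congr rfl fun a _ => Finset.sum_congr rfl fun b _ => hθ.antisymm a b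
          linarith
        have hx : ∑ b, θ x b = 1 := hθ.source hxy
        have hy1 : ∑ b, θ y' b = -1 := by
          have h3 : ∑ a, ∑ b, θ a b = ∑ b, θ x b + ∑ b, θ y' b := by
            rw [← Finset.add_sum_erase _ _ (Finset.mem_univ x),
              ← Finset.add_sum_erase _ _ (Finset.mem_erase.mpr
                ⟨fun h => hxy h.symm, Finset.mem_univ y'⟩)]
            rw [Finset.sum_eq_zero (s := (Finset.univ.erase x).erase y')]
            · ring
            · intro a ha
              rw [Finset.mem_erase, Finset.mem_erase] at ha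
              exact hθ.conserved a ha.2.1 ha.1
          linarith
        intro a
        by_cases h1 : a = x
        · subst h1
          rw [if_pos rfl, if_neg hxy, hx, sub_zero]
        · by_cases h2 : a = y'
          · subst h2
            rw [if_neg h1, if_pos rfl, hy1, zero_sub]
          · rw [if_neg h1, if_neg h2, hθ.conserved a h1 h2, sub_zero]
      have h4 : ∑ a, ∑ b, θ a b / 2 * (v b - v a) =
          (∑ a, ∑ b, θ a b * v b) / 2 - (∑ a, ∑ b, θ a b * v a) / 2 := by
        rw [Finset.sum_div, Finset.sum_div, ← Finset.sum_sub_distrib]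
        refine Finset.sum_congr rfl fun a _ => ?_
        rw [Finset.sum_div, Finset.sum_div, ← Finset.sum_sub_distrib]
        exact Finset.sum_congr rfl fun b _ => by ring
      have h5 : ∑ a, ∑ b, θ a b * v b = -∑ a, ∑ b, θ a b * v a := by
        rw [Finset.sum_comm, ← Finset.sum_neg_distrib]
        refine Finset.sum_congr rfl fun a _ => ?_
        rw [← Finset.sum_neg_distrib]
        refine Finset.sum_congr rfl fun b _ => ?_
        rw [hθ.antisymm a b]
        ring
      have h6 : ∑ a, ∑ b, θ a b * v a = v x - v y' := by
        simp only [← Finset.sum_mul, hdiv]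
        simp [sub_mul, Finset.sum_sub_distrib]
      rw [h4, h5, h6]
      ring
    · have h7 : ∑ a, ∑ b, (θ a b / 2) ^ 2 = (∑ a, ∑ b, θ a b ^ 2) / 2 / 2 := by
        rw [Finset.sum_div, Finset.sum_div]
        refine Finset.sum_congr rfl fun a _ => ?_
        rw [Finset.sum_div, Finset.sum_div]
        exact Finset.sum_congr rfl fun b _ => by ring
      have h8 := hθ.energy
      have h9 : 0 ≤ (∑ a, ∑ b, θ a b ^ 2) / 2 :=
        div_nonneg (Finset.sum_nonneg fun a _ => Finset.sum_nonneg fun b _ => sq_nonneg _)
          (by norm_num)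
      simp only
      rw [h7]
      linarith

end Pool.Agent.Results.MP_a51497_pr.ResistanceCriterion
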