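import Pool.Agent.Lib.Arb.Final

/-!
# The expected tree size of the two-dimensional arboreal gas is exponentially large

`meanTreeSize (torus L) β i` is the expected number of vertices of the tree of the arboreal gas on
`Λ_L = (ℤ / L)²` which contains `i`. We prove that it is at least `exp (a β)` for all large `β` as
soon as `L ≥ exp (a β)`.
-/

set_option autoImplicit false

namespace Pool.Agent.Results.MP_a51497_pr.TreeSizeLowerBound

open Pool.Agent.Lib.Arb

/-- There are `a > 0` and `β₀ > 0` such that `𝔼_{β,Λ_L} |T_i| ≥ exp (a β)` for all `β ≥ β₀`, all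
`L ≥ exp (a β)` and all `i ∈ Λ_L`. -/
theorem result : ∃ a : ℝ, 0 < a ∧ ∃ β₀ : ℝ, 0 < β₀ ∧ ∀ β : ℝ, β₀ ≤ β →
    ∀ (L : ℕ) [NeZero L], Real.exp (a * β) ≤ L →
      ∀ i : ZMod L × ZMod L, Real.exp (a * β) ≤ meanTreeSize (torus L) β i :=
  tree_lower

end Pool.Agent.Results.MP_a51497_pr.TreeSizeLowerBound
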